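import Mathlib

/-!
# The rational roots of the Stern polynomials are `-1`, `-1/2`, `-1/3` and `0`

A nonzero rational root is `-1/k` with a positive integer `k`, because the constant term of `B_n`
is `1` for odd `n`.  For real `t` with `-1/4 ≤ t < 0` the ratio `r = B_{n+1}(t) / B_n(t)` is
always in `(-∞, -2] ∪ [-1/2, ∞)`: this set contains `t` and is mapped into itself by
`r ↦ (1 + r) / t` and by `r ↦ t r / (1 + r)`, the maps which belong to `n ↦ 2n` and `n ↦ 2n + 1`.
So `B_n(t) ≠ 0`.
-/

set_option autoImplicit false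

open Polynomial

namespace Pool.Agent.Results.MP_32086b_nt.RationalRoots

/-- The Stern polynomials: `B_0 = 0`, `B_1 = 1`, `B_{2n} = t B_n`, `B_{2n+1} = B_n + B_{n+1}`. -/
noncomputable def stern : ℕ → ℤ[X]
  | 0 => 0
  | 1 => 1
  | (n + 2) =>
    if (n + 2) % 2 = 0 then X * stern ((n + 2) / 2)
    else stern ((n + 2) / 2) + stern ((n + 2) / 2 + 1)
decreasing_by all_goals omega

lemma stern_one : stern 1 = 1 := by rw [stern]

lemma stern_even (n : ℕ) (hn : 1 ≤ n) : stern (2 * n) = X * stern n := by
  obtain ⟨m, rfl⟩ : ∃ m, n = m + 1 := ⟨n - 1, by omega⟩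
  rw [show 2 * (m + 1) = 2 * m + 2 by ring, stern, if_pos (by omega)]
  congr 2
  omega

lemma stern_odd (n : ℕ) (hn : 1 ≤ n) : stern (2 * n + 1) = stern n + stern (n + 1) := by
  obtain ⟨m, rfl⟩ : ∃ m, n = m + 1 := ⟨n - 1, by omega⟩
  rw [show 2 * (m + 1) + 1 = (2 * m + 1) + 2 by ring, stern, if_neg (by omega)]
  rw [show (2 * m + 1 + 2) / 2 = m + 1 by omega]

/-- the invariant region for consecutive values -/
def Good (x y : ℝ) : Prop := x ≠ 0 ∧ (0 ≤ y / x ∨ (-1 / 2 ≤ y / x ∧ y / x < 0) ∨ y / x ≤ -2)

lemma good_zero {t x y : ℝ} (h1 : -1 / 4 ≤ t) (h2 : t < 0) (h : Good x y) :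
    Good (t * x) (x + y) := by
  obtain ⟨hx, h⟩ := h
  have e : (x + y) / (t * x) = (1 + y / x) / t := by
    field_simp
  refine ⟨mul_ne_zero h2.ne hx, ?_⟩
  rw [e]
  set r := y / x
  rcases h with h | h | h
  · right; right
    rw [div_le_iff_of_neg h2]
    nlinarith
  · right; right
    rw [div_le_iff_of_neg h2]
    nlinarith
  · left
    apply div_nonneg_of_nonpos <;> linarith

lemma good_one {t x y : ℝ} (h1 : -1 / 4 ≤ t) (h2 : t < 0) (h : Good x y) :
    Good (x + y) (t * y) := by
  obtain ⟨hx, h⟩ := h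
  have hy : y = (y / x) * x := by field_simp
  set r := y / x with hr
  have hr1 : 1 + r ≠ 0 := by
    rcases h with h | h | h
    · linarith
    · linarith [h.1]
    · intro h0; linarith
  have e0 : x + y = (1 + r) * x := by rw [hy]; ring
  have e : t * y / (x + y) = t * r / (1 + r) := by
    rw [e0, hy]
    field_simp
  refine ⟨by rw [e0]; exact mul_ne_zero hr1 hx, ?_⟩
  rw [e]
  rcases h with h | h | h
  · rcases h.eq_or_lt with h0 | h0
    · left
      rw [← h0]; simp
    · right; left
      constructor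
      · rw [le_div_iff₀ (by linarith)]
        nlinarith
      · exact div_neg_of_neg_of_pos (mul_neg_of_neg_of_pos h2 h0) (by linarith)
  · left
    exact div_nonneg (mul_nonneg_of_nonpos_of_nonpos h2.le h.2.le) (by linarith [h.1])
  · right; left
    constructor
    · rw [le_div_iff_of_neg (by linarith)]
      nlinarith
    · exact div_neg_of_pos_of_neg (mul_pos_of_neg_of_neg h2 (by linarith)) (by linarith)

/-- the value of the Stern polynomial at a real number -/
noncomputable def val (t : ℝ) (n : ℕ) : ℝ := aeval t (stern n)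

lemma val_one (t : ℝ) : val t 1 = 1 := by unfold val; rw [stern_one]; simp

lemma val_even (t : ℝ) (n : ℕ) (hn : 1 ≤ n) : val t (2 * n) = t * val t n := by
  unfold val; rw [stern_even n hn]; simp

lemma val_odd (t : ℝ) (n : ℕ) (hn : 1 ≤ n) : val t (2 * n + 1) = val t n + val t (n + 1) := by
  unfold val; rw [stern_odd n hn]; simp

lemma good_all {t : ℝ} (h1 : -1 / 4 ≤ t) (h2 : t < 0) (n : ℕ) (hn : 1 ≤ n) :
    Good (val t n) (val t (n + 1)) := by
  induction n using Nat.strong_induction_on with
  | _ n ih =>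
    rcases Nat.lt_or_ge n 2 with h | h
    · obtain rfl : n = 1 := by omega
      have e2 : val t 2 = t := by
        have := val_even t 1 le_rfl
        simpa [val_one] using this
      rw [val_one, show 1 + 1 = 2 by norm_num, e2]
      refine ⟨one_ne_zero, Or.inr (Or.inl ⟨by rw [div_one]; linarith, by rw [div_one]; exact h2⟩)⟩
    · obtain ⟨m, rfl | rfl⟩ : ∃ m, n = 2 * m ∨ n = 2 * m + 1 := ⟨n / 2, by omega⟩
      · have h3 := ih m (by omega) (by omega)
        rw [val_even t m (by omega), val_odd t m (by omega)]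
        exact good_zero h1 h2 h3
      · have h3 := ih m (by omega) (by omega)
        rw [val_odd t m (by omega), show 2 * m + 1 + 1 = 2 * (m + 1) by ring,
          val_even t (m + 1) (by omega)]
        exact good_one h1 h2 h3

lemma val_pos {t : ℝ} (ht : 0 < t) (n : ℕ) (hn : 1 ≤ n) : 0 < val t n := by
  induction n using Nat.strong_induction_on with
  | _ n ih =>
    rcases Nat.lt_or_ge n 2 with h | h
    · obtain rfl : n = 1 := by omega
      rw [val_one]; norm_num
    · obtain ⟨m, rfl | rfl⟩ : ∃ m, n = 2 * m ∨ n = 2 * m + 1 := ⟨n / 2, by omega⟩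
      · rw [val_even t m (by omega)]
        exact mul_pos ht (ih m (by omega) (by omega))
      · rw [val_odd t m (by omega)]
        exact add_pos (ih m (by omega) (by omega)) (ih (m + 1) (by omega) (by omega))

lemma coeff_zero_odd (n : ℕ) (hn : 1 ≤ n) :
    (n % 2 = 1 → (stern n).coeff 0 = 1) ∧ (n % 2 = 0 → (stern n).coeff 0 = 0) := by
  induction n using Nat.strong_induction_on with
  | _ n ih =>
    rcases Nat.lt_or_ge n 2 with h | h
    · obtain rfl : n = 1 := by omega
      rw [stern_one]; simp
    · obtain ⟨m, rfl | rfl⟩ : ∃ m, n = 2 * m ∨ n = 2 * m + 1 := ⟨n / 2, by omega⟩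
      · rw [stern_even m (by omega)]
        refine ⟨fun h => by omega, fun _ => by simp⟩
      · rw [stern_odd m (by omega), coeff_add]
        have h1 := ih m (by omega) (by omega)
        have h2 := ih (m + 1) (by omega) (by omega)
        refine ⟨fun _ => ?_, fun h => by omega⟩
        rcases Nat.mod_two_eq_zero_or_one m with h3 | h3
        · rw [h1.2 h3, h2.1 (by omega)]; norm_num
        · rw [h1.1 h3, h2.2 (by omega)]; norm_num

lemma root_odd (a : ℚ) (n : ℕ) (hn : n % 2 = 1) (h : aeval a (stern n) = 0) :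
    a = -1 ∨ a = -1 / 2 ∨ a = -1 / 3 := by
  have hval : ∀ m, val (a : ℝ) m = ((aeval a (stern m) : ℚ) : ℝ) := by
    intro m
    unfold val
    have := aeval_algebraMap_apply (B := ℝ) a (stern m)
    simpa using this
  have h1 := num_dvd_of_is_root h
  rw [(coeff_zero_odd n (by omega)).1 hn] at h1
  have h2 := IsFractionRing.mk'_num_den' ℤ a
  set d := IsFractionRing.den ℤ a with hd
  have hd0 : ((d : ℤ) : ℚ) ≠ 0 := by
    exact_mod_cast nonZeroDivisors.ne_zero d.2
  have h3 : a = ((IsFractionRing.num ℤ a : ℤ) : ℚ) / ((d : ℤ) : ℚ) := by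
    have h2' := h2.symm
    simpa using h2'
  obtain ⟨e, he0, he⟩ : ∃ e : ℤ, e ≠ 0 ∧ a = 1 / (e : ℚ) := by
    rcases Int.isUnit_iff.1 (isUnit_of_dvd_one h1) with h4 | h4
    · refine ⟨d, by exact_mod_cast hd0, ?_⟩
      rw [h3, h4]; norm_num
    · refine ⟨-d, by simp, ?_⟩
      rw [h3, h4]; push_cast
      field_simp
  have he1 : e < 0 := by
    by_contra hcon
    have hpos : 0 < e := by omega
    have ha : (0 : ℝ) < (a : ℝ) := by
      rw [he]; push_cast
      have : (0 : ℝ) < e := by exact_mod_cast hpos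
      positivity
    have h5 := val_pos ha n (by omega)
    rw [hval, h] at h5
    simp at h5
  obtain ⟨k, rfl⟩ : ∃ k : ℕ, e = -(k : ℤ) := ⟨e.natAbs, by omega⟩
  have hk : 1 ≤ k := by omega
  have hk4 : k < 4 := by
    by_contra hcon
    have hk4 : 4 ≤ k := by omega
    have hkR : (4 : ℝ) ≤ k := by exact_mod_cast hk4
    have ha : (a : ℝ) = -(1 / (k : ℝ)) := by
      rw [he]; push_cast
      rw [one_div, one_div, inv_neg]
    have h6 : (1 : ℝ) / k ≤ 1 / 4 := one_div_le_one_div_of_le (by norm_num) hkR
    have h7 : (0 : ℝ) < 1 / k := by positivity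
    have h8 := (good_all (t := (a : ℝ)) (by rw [ha]; linarith) (by rw [ha]; linarith) n
      (by omega)).1
    apply h8
    rw [hval, h]
    simp
  interval_cases k
  · left; rw [he]; norm_num
  · right; left; rw [he]; norm_num
  · right; right; rw [he]; norm_num

/-- **Theorem.** The set of the rational numbers `a` with `B_n(a) = 0` for some `n ≥ 1` is exactly
`{-1, -1/2, -1/3, 0}`. -/
theorem result : {a : ℚ | ∃ n : ℕ, 1 ≤ n ∧ aeval a (stern n) = 0} = {-1, -1 / 2, -1 / 3, 0} := by
  have hmain : ∀ (n : ℕ) (a : ℚ), 1 ≤ n → aeval a (stern n) = 0 →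
      a = -1 ∨ a = -1 / 2 ∨ a = -1 / 3 ∨ a = 0 := by
    intro n
    induction n using Nat.strong_induction_on with
    | _ n ih =>
      intro a hn h
      rcases Nat.mod_two_eq_zero_or_one n with h0 | h0
      · obtain ⟨m, rfl⟩ : ∃ m, n = 2 * m := ⟨n / 2, by omega⟩
        rw [stern_even m (by omega), map_mul, aeval_X, mul_eq_zero] at h
        rcases h with h | h
        · exact Or.inr (Or.inr (Or.inr h))
        · exact ih m (by omega) a (by omega) h
      · rcases root_odd a n h0 h with h | h | h
        · exact Or.inl h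
        · exact Or.inr (Or.inl h)
        · exact Or.inr (Or.inr (Or.inl h))
  have s2 : stern 2 = X := by
    have := stern_even 1 le_rfl
    simpa [stern_one] using this
  have s3 : stern 3 = X + 1 := by
    have := stern_odd 1 le_rfl
    rw [stern_one, show 1 + 1 = 2 by norm_num, s2] at this
    rw [show 3 = 2 * 1 + 1 by norm_num, this]; ring
  have s5 : stern 5 = 2 * X + 1 := by
    have := stern_odd 2 (by norm_num)
    rw [s2, show 2 + 1 = 3 by norm_num, s3] at this
    rw [show 5 = 2 * 2 + 1 by norm_num, this]; ring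
  have s6 : stern 6 = X * (X + 1) := by
    have := stern_even 3 (by norm_num)
    rw [s3] at this
    exact this
  have s10 : stern 10 = X * (2 * X + 1) := by
    have := stern_even 5 (by norm_num)
    rw [s5] at this
    exact this
  have s11 : stern 11 = (2 * X + 1) + X * (X + 1) := by
    have := stern_odd 5 (by norm_num)
    rw [s5, show 5 + 1 = 6 by norm_num, s6] at this
    exact this
  have s21 : stern 21 = (3 * X + 1) * (X + 1) := by
    have := stern_odd 10 (by norm_num)
    rw [s10, show 10 + 1 = 11 by norm_num, s11] at this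
    rw [show 21 = 2 * 10 + 1 by norm_num, this]; ring
  ext a
  simp only [Set.mem_ofPred_eq, Set.mem_insert_iff, Set.mem_singleton_iff]
  constructor
  · rintro ⟨n, hn, h⟩
    exact hmain n a hn h
  · rintro (rfl | rfl | rfl | rfl)
    · exact ⟨3, by norm_num, by rw [s3]; simp⟩
    · refine ⟨5, by norm_num, ?_⟩
      rw [s5]
      simp only [map_add, map_mul, aeval_X, map_one, map_ofNat]
      norm_num
    · refine ⟨21, by norm_num, ?_⟩
      rw [s21]
      simp only [map_add, map_mul, aeval_X, map_one, map_ofNat]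
      norm_num
    · exact ⟨2, by norm_num, by rw [s2]; simp⟩

end Pool.Agent.Results.MP_32086b_nt.RationalRoots
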